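import Pool.Agent.H450Z.GLGame

set_option autoImplicit false

namespace Pool.Agent.Results.MP_e811a4_lc.AConstructible

open Pool.Agent.H450Z.GL

/-- If every set is constructible, then for every set `L` with at least two elements there is a
payoff set `A` whose multiboard Gale-Stewart game is undetermined for every nonempty set `K` of
boards. -/
theorem result (hL : VeqL) (L : Type) [Nontrivial L] : ∃ A : Set (ℕ → L),
    ∀ K : Type, Nonempty K →
      ¬ (∃ σ : List (K → L) → (K → L), ∀ f : ℕ → K → L,
          (∀ n : ℕ, f (2 * n) = σ (List.ofFn (fun i : Fin (2 * n) => f i.val))) →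
            ∃ α : K, (fun n : ℕ => f n α) ∈ A) ∧
      ¬ (∃ τ : List (K → L) → (K → L), ∀ f : ℕ → K → L,
          (∀ n : ℕ, f (2 * n + 1) = τ (List.ofFn (fun i : Fin (2 * n + 1) => f i.val))) →
            ∀ α : K, (fun n : ℕ => f n α) ∉ A) :=
  undetermined hL L

end Pool.Agent.Results.MP_e811a4_lc.AConstructible
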